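import Pool.Agent.TH138.LG.Pump2

set_option autoImplicit false

namespace Pool.Agent.Results.MP_709eaf_lc.WqoNotCF

/-- `u ⊢ v`: for a word `t = a₁ ⋯ aₙ` of `I` (the second components of `p`), words
`u₁, …, uₙ` (the first components of `p`) and `uₙ₊₁ = z`,
`u = u₁ ⋯ uₙ uₙ₊₁` and `v = u₁ a₁ ⋯ uₙ aₙ uₙ₊₁`. -/
def Step {A : Type} (I : Finset (List A)) (u v : List A) : Prop :=
  ∃ (p : List (List A × A)) (z : List A), p.map Prod.snd ∈ I ∧
    u = (p.map Prod.fst).flatten ++ z ∧ v = (p.map fun q => q.1 ++ [q.2]).flatten ++ z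

/-- The reflexive-transitive closure of `⊢`. -/
def Derives {A : Type} (I : Finset (List A)) : List A → List A → Prop :=
  Relation.ReflTransGen (Step I)

/-- The shuffle closure `L_I`. -/
def shuffleClosure {A : Type} (I : Finset (List A)) : Language A :=
  {u | Derives I [] u}

/-- The relation `le` is a well quasi-order on `X`: every infinite sequence in `X` has two related
terms in the right order. (The relations `Derives I` are reflexive and transitive.) -/
def WqoOn {B : Type} (le : B → B → Prop) (X : Set B) : Prop :=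
  ∀ x : ℕ → B, (∀ n, x n ∈ X) → ∃ i j, i < j ∧ le (x i) (x j)

/-- Interleavings. -/
inductive Shuf {A : Type} : List A → List A → List A → Prop
  | nil : Shuf [] [] []
  | left (x : A) {u t v : List A} : Shuf u t v → Shuf (x :: u) t (x :: v)
  | right (x : A) {u t v : List A} : Shuf u t v → Shuf u (x :: t) (x :: v)

theorem Shuf.exists_pairs {A : Type} {u t v : List A} (h : Shuf u t v) :
    ∃ (p : List (List A × A)) (z : List A), p.map Prod.snd = t ∧
      u = (p.map Prod.fst).flatten ++ z ∧ v = (p.map fun q => q.1 ++ [q.2]).flatten ++ z := by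
  induction h with
  | nil => exact ⟨[], [], rfl, rfl, rfl⟩
  | left x _ ih =>
    obtain ⟨p, z, h1, rfl, rfl⟩ := ih
    cases p with
    | nil => exact ⟨[], x :: z, h1, rfl, rfl⟩
    | cons q p => exact ⟨(x :: q.1, q.2) :: p, z, h1, rfl, rfl⟩
  | right x _ ih =>
    obtain ⟨p, z, h1, rfl, rfl⟩ := ih
    exact ⟨([], x) :: p, z, by simp [h1], rfl, rfl⟩

theorem Shuf.step {A : Type} {I : Finset (List A)} {u t v : List A} (h : Shuf u t v)
    (ht : t ∈ I) : Step I u v := by
  obtain ⟨p, z, rfl, h2, h3⟩ := h.exists_pairs
  exact ⟨p, z, ht, h2, h3⟩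

theorem Shuf.count {A : Type} [DecidableEq A] {u t v : List A} (h : Shuf u t v) (a : A) :
    v.count a = u.count a + t.count a := by
  induction h with
  | nil => rfl
  | left x _ ih => simp only [List.count_cons, ih]; omega
  | right x _ ih => simp only [List.count_cons, ih]; omega

theorem Shuf.refl {A : Type} (u : List A) : Shuf u [] u := by
  induction u with
  | nil => exact .nil
  | cons x u ih => exact .left x ih

theorem Shuf.eq_of_nil {A : Type} {u t v : List A} (h : Shuf u t v) (ht : t = []) : u = v := by
  induction h with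
  | nil => rfl
  | left x _ ih => rw [ih ht]
  | right x _ _ => simp at ht

theorem Shuf.assoc {A : Type} {u t v : List A} (h : Shuf u t v) :
    ∀ {s r : List A}, Shuf s r t → ∃ u', Shuf u s u' ∧ Shuf u' r v := by
  induction h with
  | nil =>
    intro s r h
    cases h
    exact ⟨[], .nil, .nil⟩
  | left x _ ih =>
    intro s r h
    obtain ⟨u', h1, h2⟩ := ih h
    exact ⟨x :: u', .left x h1, .left x h2⟩
  | right x _ ih =>
    intro s r h
    cases h with
    | left _ h =>
      obtain ⟨u', h1, h2⟩ := ih h
      exact ⟨x :: u', .right x h1, .left x h2⟩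
    | right _ h =>
      obtain ⟨u', h1, h2⟩ := ih h
      exact ⟨u', h1, .right x h2⟩

theorem Shuf.of_sublist {A : Type} {u v : List A} (h : u.Sublist v) : ∃ t, Shuf u t v := by
  induction h with
  | slnil => exact ⟨[], .nil⟩
  | cons x _ ih =>
    obtain ⟨t, ht⟩ := ih
    exact ⟨x :: t, .right x ht⟩
  | cons_cons x _ ih =>
    obtain ⟨t, ht⟩ := ih
    exact ⟨t, .left x ht⟩

/-- The six arrangements of the letters `0, 1, 2`. -/
def I₀ : Finset (List (Fin 3)) := ([0, 1, 2] : List (Fin 3)).permutations.toFinset

theorem mem_I₀ (t : List (Fin 3)) : t ∈ I₀ ↔ t.Perm [0, 1, 2] := by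
  rw [I₀, List.mem_toFinset, List.mem_permutations]

/-- All letters occur equally often. -/
def Bal (w : List (Fin 3)) : Prop := ∀ i : Fin 3, w.count i = w.count 0

theorem perm_of_balanced {t : List (Fin 3)} (h : ∀ i : Fin 3, i ∈ t) :
    ∃ s ∈ I₀, ∃ r, Shuf s r t := by
  refine ⟨t.dedup, ?_, Shuf.of_sublist (List.dedup_sublist t)⟩
  rw [mem_I₀]
  rw [List.perm_ext_iff_of_nodup (List.nodup_dedup t) (by decide)]
  intro a
  rw [List.mem_dedup]
  constructor
  · intro _
    fin_cases a <;> decide
  · intro _
    exact h a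

theorem count_I₀ {s : List (Fin 3)} (h : s ∈ I₀) (i : Fin 3) : s.count i = 1 := by
  rw [mem_I₀] at h
  rw [h.count_eq i]
  fin_cases i <;> decide

theorem derives_of_shuf : ∀ (m : ℕ) (u t v : List (Fin 3)), t.count 0 = m → Bal t → Shuf u t v →
    Derives I₀ u v := by
  intro m
  induction m with
  | zero =>
    intro u t v hm hb hs
    have ht : t = [] := by
      rw [List.eq_nil_iff_forall_not_mem]
      intro a ha
      have := List.count_pos_iff.mpr ha
      rw [hb a, hm] at this
      omega
    rw [hs.eq_of_nil ht]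
    exact Relation.ReflTransGen.refl
  | succ m ih =>
    intro u t v hm hb hs
    obtain ⟨s, hsI, r, hr⟩ := perm_of_balanced (t := t) (by
      intro i
      rw [← List.count_pos_iff, hb i, hm]
      omega)
    obtain ⟨u', h1, h2⟩ := hs.assoc hr
    refine Relation.ReflTransGen.head (h1.step hsI) (ih u' r v ?_ ?_ h2)
    · have := hr.count 0
      rw [count_I₀ hsI 0] at this
      omega
    · intro i
      have h3 := hr.count 0
      have h4 := hr.count i
      have h5 := hb i
      rw [count_I₀ hsI 0] at h3
      rw [count_I₀ hsI i] at h4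
      omega

theorem derives_of_sublist {u v : List (Fin 3)} (hu : Bal u) (hv : Bal v) (h : u.Sublist v) :
    Derives I₀ u v := by
  obtain ⟨t, ht⟩ := Shuf.of_sublist h
  refine derives_of_shuf _ u t v rfl ?_ ht
  intro i
  have h1 := ht.count i
  have h2 := ht.count 0
  have h3 := hu i
  have h4 := hv i
  omega

theorem step_count {u v : List (Fin 3)} (h : Step I₀ u v) (i : Fin 3) :
    v.count i = u.count i + 1 := by
  obtain ⟨p, z, hp, rfl, rfl⟩ := h
  rw [← count_I₀ hp i]
  clear hp
  induction p with
  | nil => simp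
  | cons q p ih =>
    simp only [List.map_cons, List.flatten_cons, List.append_assoc, List.count_append,
      List.count_cons, List.count_nil] at ih ⊢
    omega

theorem mem_iff (w : List (Fin 3)) : w ∈ shuffleClosure I₀ ↔ Bal w := by
  constructor
  · intro h
    have h' : Relation.ReflTransGen (Step I₀) [] w := h
    induction h' with
    | refl => intro i; rfl
    | tail h1 h2 ih =>
      intro i
      rw [step_count h2 i, step_count h2 0, ih h1 i]
  · intro h
    exact derives_of_sublist (fun i => rfl) h (List.nil_sublist w)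

theorem wqo : WqoOn (Derives I₀) (shuffleClosure I₀ : Set (List (Fin 3))) := by
  intro x hx
  have h1 : (Set.univ : Set (Fin 3)).PartiallyWellOrderedOn (· = ·) :=
    Set.Finite.partiallyWellOrderedOn (Set.toFinite _)
  have h2 := Set.PartiallyWellOrderedOn.partiallyWellOrderedOn_sublistForall₂ _ h1
  obtain ⟨i, j, hij, h⟩ := h2.exists_lt (f := x) (by intro n a _; trivial)
  refine ⟨i, j, hij, derives_of_sublist ((mem_iff _).1 (hx i)) ((mem_iff _).1 (hx j)) ?_⟩
  obtain ⟨l, h3, h4⟩ := List.sublistForall₂_iff.1 h
  rw [List.forall₂_eq_eq_eq] at h3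
  rw [h3]
  exact h4

open Pool.Agent.TH138.LG in
theorem not_cf : ¬ (shuffleClosure I₀).IsContextFree := by
  rintro ⟨g, hg⟩
  have hmem : ∀ w, w ∈ g.language ↔ Bal w := by
    intro w
    rw [hg, mem_iff]
  let c : List (Fin 3) → List (Fin 3) → (Fin 3 → Bool) × (Fin 3 → Bool) :=
    fun p q => (fun i => decide (i ∈ p), fun i => decide (i ∈ q))
  set n := width g ^ ((inputs g).card * Fintype.card ((Fin 3 → Bool) × (Fin 3 → Bool))) + 1 with hn
  set w : List (Fin 3) := List.replicate n 0 ++ (List.replicate n 1 ++ List.replicate n 2) with hw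
  have hsort : w.Pairwise (· ≤ ·) := by
    rw [hw, List.pairwise_append, List.pairwise_append]
    refine ⟨List.pairwise_replicate.2 (Or.inr le_rfl), ⟨List.pairwise_replicate.2 (Or.inr le_rfl),
      List.pairwise_replicate.2 (Or.inr le_rfl), ?_⟩, ?_⟩
    · intro a ha b hb
      rw [List.eq_of_mem_replicate ha, List.eq_of_mem_replicate hb]
      decide
    · intro a ha b _
      rw [List.eq_of_mem_replicate ha]
      exact Fin.zero_le b
  have hbal : Bal w := by
    intro i
    rw [hw]
    fin_cases i <;> simp [List.count_append, List.count_replicate]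
  have hlen : width g ^ ((inputs g).card * Fintype.card ((Fin 3 → Bool) × (Fin 3 → Bool))) <
      w.length := by
    rw [hw]
    simp only [List.length_append, List.length_replicate]
    omega
  obtain ⟨u, v, x, y, z, h1, h2, h3, h4⟩ := pumpingC c ((hmem w).2 hbal) hlen
  have h5 := (hmem _).1 (h4 0)
  simp only [List.replicate_zero, List.flatten_nil, List.append_nil] at h5
  have hcv : ∀ i, i ∈ v → i ∈ u := by
    intro i hi
    have := congrFun (congrArg Prod.fst h3) i
    simp only [c, decide_eq_decide] at this
    exact this.2 (List.mem_append_right _ hi)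
  have hcy : ∀ i, i ∈ y → i ∈ z := by
    intro i hi
    have := congrFun (congrArg Prod.snd h3) i
    simp only [c, decide_eq_decide] at this
    exact this.2 (List.mem_append_left _ hi)
  rw [h1] at hsort
  have hv : ∀ i ∈ v, ∀ j ∈ v, i ≤ j := by
    intro i hi j hj
    rw [List.append_assoc, List.append_assoc, List.append_assoc, List.pairwise_append] at hsort
    exact hsort.2.2 i (hcv i hi) j (List.mem_append_left _ hj)
  have hy : ∀ i ∈ y, ∀ j ∈ y, i ≤ j := by
    intro i hi j hj
    rw [List.pairwise_append] at hsort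
    exact hsort.2.2 i (List.mem_append_right _ hi) j (hcy j hj)
  -- the counts removed
  have hcount : ∀ i, (v ++ y).count i = (v ++ y).count 0 := by
    intro i
    have e1 := hbal i
    have e2 := h5 i
    rw [h1] at e1
    simp only [List.count_append] at e1 e2 ⊢
    omega
  have hne : v ++ y ≠ [] := by
    intro h
    rw [List.append_eq_nil_iff] at h
    rcases h2 with h2 | h2
    · exact h2 h.1
    · exact h2 h.2
  have hall : ∀ i, i ∈ v ++ y := by
    obtain ⟨a, ha⟩ := List.exists_mem_of_ne_nil _ hne
    intro i
    rw [← List.count_pos_iff, hcount i, ← hcount a]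
    exact List.count_pos_iff.2 ha
  have m0 := hall 0
  have m1 := hall 1
  have m2 := hall 2
  simp only [List.mem_append] at m0 m1 m2
  rcases m0 with m0 | m0 <;> rcases m1 with m1 | m1 <;> rcases m2 with m2 | m2
  · exact absurd (hv 1 m1 0 m0) (by decide)
  · exact absurd (hv 1 m1 0 m0) (by decide)
  · exact absurd (hv 2 m2 0 m0) (by decide)
  · exact absurd (hy 2 m2 1 m1) (by decide)
  · exact absurd (hv 2 m2 1 m1) (by decide)
  · exact absurd (hy 2 m2 0 m0) (by decide)
  · exact absurd (hy 1 m1 0 m0) (by decide)
  · exact absurd (hy 1 m1 0 m0) (by decide)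

/-- There is a finite set `I` of nonempty words over a three-letter alphabet such that `⊢*` is a
well quasi-order on the shuffle closure of `I` while this language is not context-free. -/
theorem result : ∃ I : Finset (List (Fin 3)), [] ∉ I ∧
    WqoOn (Derives I) (shuffleClosure I : Set (List (Fin 3))) ∧
    ¬ (shuffleClosure I).IsContextFree := by
  refine ⟨I₀, ?_, wqo, not_cf⟩
  rw [mem_I₀]
  intro h
  have := h.length_eq
  simp at this

end Pool.Agent.Results.MP_709eaf_lc.WqoNotCF
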